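import Pool.Agent.Helper16.CPG.G14

set_option autoImplicit false

namespace Pool.Agent.Results.MP_f22a19_gt.ConvexPotentials

open Pool.SV Pool.AF Pool.Agent.Helper47.HP

/-- **Closed convex affine manifolds with an equivariant convex function, for instance closed
Hessian manifolds, have zero simplicial volume.**

`X` is a nonempty open convex subset of `ℝ^(n+1)`, and `Γ` a group of affine automorphisms of
`ℝ^(n+1)` preserving `X` and acting on it freely, properly discontinuously and cocompactly; `V` is
the lineality space of `X`. For a subgroup `Γ₁` of finite index there is a convex function `φ` on
`X` such that `φ ∘ g - φ` is affine for all `g ∈ Γ₁` (for instance `φ = 0`); `V_φ` is the space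
of the directions of `V` in which `φ` is affine. `Γ₁` preserves a flag from `0` to `V_φ`, and
acts linearly on spaces `ℝ^(d_j)`, preserving in each of them a nonempty open convex cone without
lines (`n_j = d_j - 1`), or, up to positive factors, a totally geodesic submanifold of dimension
`n_j` of the space of the positive definite matrices of determinant one, where
`∑ n_j ≤ dim V_φ` (and `< dim V_φ` if `X` is the whole space), and such that the elements that
are bounded up to scalars on all the `ℝ^(d_j)` and bounded on `ℝ^(n+1) / V` are bounded up to
scalars on the quotients of the flag. (If `φ` is strictly convex then `V_φ = 0` and nothing is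
assumed, if `X` is not the whole space.) `M` is the quotient `X / Γ`, a closed affine manifold of
dimension `n + 1`. Then every real singular cycle of degree `n + 1` of `M` is homologous to cycles
of arbitrarily small `ℓ¹`-norm. -/
theorem result (n : ℕ) (Γ : Subgroup (Aff (n + 1))) (X : Set (EuclideanSpace ℝ (Fin (n + 1))))
    (hX : Divides Γ X) (hdom : VirtuallyPotentialDominated Γ X) (M : Type*)
    [TopologicalSpace M] (π : X → M) (hπ : IsOrbitSpace Γ X M π) : ZeroSeminorm M n :=
  resHP n Γ X hX hdom M π hπ

end Pool.Agent.Results.MP_f22a19_gt.ConvexPotentials
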