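import Pool.Agent.Helper16.LDG.G29

set_option autoImplicit false

namespace Pool.Agent.Results.MP_f22a19_gt.LowDim

open Pool.SV Pool.AF

/-- **Closed convex affine manifolds whose universal cover is not the whole affine space and has a
lineality space of dimension at most four have zero simplicial volume.**

`X` is a nonempty open convex subset of `ℝ^(n+1)`, not the whole space, and `Γ` a group of affine
automorphisms of `ℝ^(n+1)` preserving `X` and acting on it freely, properly discontinuously and
cocompactly; the lineality space of `X` has dimension at most four. `M` is the quotient `X / Γ`, a
closed affine manifold of dimension `n + 1`. Then every real singular cycle of degree `n + 1` of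
`M` is homologous to cycles of arbitrarily small `ℓ¹`-norm. -/
theorem result (n : ℕ) (Γ : Subgroup (Aff (n + 1))) (X : Set (EuclideanSpace ℝ (Fin (n + 1))))
    (hX : Divides Γ X) (h : LinealityAtMostFour X) (M : Type*)
    [TopologicalSpace M] (π : X → M) (hπ : IsOrbitSpace Γ X M π) : ZeroSeminorm M n :=
  resAC n Γ X hX h M π hπ

end Pool.Agent.Results.MP_f22a19_gt.LowDim
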