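import Pool.Agent.Helper84.SV.Stmt

set_option autoImplicit false

namespace Pool.Agent.Results.MP_f22a19_gt.SolvableNormal

open Pool.SV

/-- **Closed convex affine manifolds whose fundamental group has a nontrivial virtually solvable
normal subgroup have zero simplicial volume.**

`X` is a nonempty open convex subset of `ℝ^(n+1)`, and `Γ` a group of affine automorphisms of
`ℝ^(n+1)` preserving `X` and acting on it freely, properly discontinuously and cocompactly. `N` is
a nontrivial normal subgroup of `Γ` with a solvable subgroup `S` of finite index. `M` is the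
quotient `X / Γ`, a closed affine manifold of dimension `n + 1`. Then every real singular cycle of
degree `n + 1` of `M` is homologous to cycles of arbitrarily small `ℓ¹`-norm. -/
theorem result (n : ℕ) (Γ : Subgroup (Aff (n + 1))) (X : Set (EuclideanSpace ℝ (Fin (n + 1))))
    (hX : Divides Γ X) (hΓ : HasVirtuallySolvableNormal Γ) (M : Type*) [TopologicalSpace M]
    (π : X → M) (hπ : IsOrbitSpace Γ X M π) : ZeroSeminorm M n := by
  obtain ⟨N, S, hNΓ, hNn, hN, _, hSfin, hS⟩ := hΓ
  exact fun z hz ε hε => main n Γ X hX.isOpen hX.convex hX.nonempty hX.inv hX.free hX.pd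
    hX.cocompact N S hNΓ hNn hN hSfin hS M π hπ.quot hπ.fib z hz ε hε

end Pool.Agent.Results.MP_f22a19_gt.SolvableNormal
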